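import Mathlib

set_option autoImplicit false

namespace Pool.Agent.Results.MP_b542c4_co.AstralRational

/-- A combinatorial 4-configuration (n_4). -/
structure Config (n : ℕ) where
  /-- `inc i j` means that the point `i` is incident with the line `j` -/
  inc : Fin n → Fin n → Prop
  lines_through : ∀ i, {j | inc i j}.ncard = 4
  points_on : ∀ j, {i | inc i j}.ncard = 4
  unique_line : ∀ i i' j j', i ≠ i' → inc i j → inc i' j → inc i j' → inc i' j' → j = j'

/-- A geometric realization in the Euclidean plane, which is taken to be the complex plane: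
pairwise distinct points, pairwise distinct straight lines, and a realized point lies on a realized
line if and only if the two are incident. -/
structure Realization {n : ℕ} (C : Config n) where
  pt : Fin n → ℂ
  ln : Fin n → AffineSubspace ℝ ℂ
  pt_inj : Function.Injective pt
  ln_inj : Function.Injective ln
  ln_line : ∀ j, (ln j : Set ℂ).Nonempty ∧ Module.finrank ℝ (ln j).direction = 1
  inc_iff : ∀ i j, pt i ∈ ln j ↔ C.inc i j

/-- A realization is rational if all its points have rational coordinates. -/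
def IsRational {n : ℕ} {C : Config n} (R : Realization C) : Prop :=
  ∀ i, ∃ x y : ℚ, R.pt i = ⟨x, y⟩

/-- A symmetry of a realization: an isometry of the plane mapping the set of its points onto
itself and the set of its lines onto itself. -/
def IsSymmetry {n : ℕ} {C : Config n} (R : Realization C) (f : ℂ ≃ᵢ ℂ) : Prop :=
  f '' Set.range R.pt = Set.range R.pt ∧
  (fun s : Set ℂ => f '' s) '' Set.range (fun j => (R.ln j : Set ℂ)) =
    Set.range (fun j => (R.ln j : Set ℂ))

/-- The symmetry group of the realization is the dihedral group d_m: it consists of the rotations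
about a point `c` through the multiples of 2π/m and of the m reflections
`z ↦ c + ω^j * u * conj (z - c)` with `ω = exp(2πi/m)`. -/
def DihedralSymmetry {n : ℕ} {C : Config n} (m : ℕ) (R : Realization C) : Prop :=
  ∃ c u : ℂ, ‖u‖ = 1 ∧ ∀ f : ℂ ≃ᵢ ℂ, IsSymmetry R f ↔
    ∃ j : ℕ, (∀ z, f z = c + Complex.exp (2 * Real.pi * Complex.I * j / m) * (z - c)) ∨
      (∀ z, f z = c + Complex.exp (2 * Real.pi * Complex.I * j / m) * u *
        (starRingEnd ℂ) (z - c))

/-- The orbit of the point `i` under the symmetry group (as a set of indices). -/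
def pointOrbit {n : ℕ} {C : Config n} (R : Realization C) (i : Fin n) : Set (Fin n) :=
  {i' | ∃ f, IsSymmetry R f ∧ f (R.pt i) = R.pt i'}

/-- The orbit of the line `j` under the symmetry group (as a set of indices). -/
def lineOrbit {n : ℕ} {C : Config n} (R : Realization C) (j : Fin n) : Set (Fin n) :=
  {j' | ∃ f, IsSymmetry R f ∧ f '' (R.ln j : Set ℂ) = (R.ln j' : Set ℂ)}

/-- `S` is the set of vertices of a regular m-gon. -/
def IsRegularPolygon (m : ℕ) (S : Set ℂ) : Prop :=
  ∃ c w : ℂ, w ≠ 0 ∧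
    S = {z | ∃ j : ℕ, z = c + Complex.exp (2 * Real.pi * Complex.I * j / m) * w}

/-- k-astral 4-configurations. -/
structure IsAstral {n : ℕ} {C : Config n} (k m : ℕ) (R : Realization C) : Prop where
  two_le_k : 2 ≤ k
  two_le_m : 2 ≤ m
  n_eq : n = k * m
  dihedral : DihedralSymmetry m R
  num_point_orbits : (Set.range (pointOrbit R)).ncard = k
  num_line_orbits : (Set.range (lineOrbit R)).ncard = k
  point_orbit_size : ∀ i, (pointOrbit R i).ncard = m
  line_orbit_size : ∀ j, (lineOrbit R j).ncard = m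
  polygon : ∀ i, IsRegularPolygon m (R.pt '' pointOrbit R i)
  lines_two_two : ∀ i, ∃ j j', lineOrbit R j ≠ lineOrbit R j' ∧
    {l ∈ lineOrbit R j | C.inc i l}.ncard = 2 ∧ {l ∈ lineOrbit R j' | C.inc i l}.ncard = 2
  points_two_two : ∀ l, ∃ i i', pointOrbit R i ≠ pointOrbit R i' ∧
    {p ∈ pointOrbit R i | C.inc p l}.ncard = 2 ∧ {p ∈ pointOrbit R i' | C.inc p l}.ncard = 2

/-! ### The combinatorial configuration -/

def nbr : Fin 24 → List (Fin 24) := ![[0, 1, 12, 20], [1, 2, 13, 21], [2, 3, 14, 22],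
  [3, 4, 15, 23], [4, 5, 16, 12], [5, 6, 17, 13], [6, 7, 18, 14], [7, 8, 19, 15], [8, 9, 20, 16],
  [9, 10, 21, 17], [10, 11, 22, 18], [11, 0, 23, 19], [0, 4, 21, 14], [1, 5, 22, 15],
  [2, 6, 23, 16], [3, 7, 12, 17], [4, 8, 13, 18], [5, 9, 14, 19], [6, 10, 15, 20], [7, 11, 16, 21],
  [8, 0, 17, 22], [9, 1, 18, 23], [10, 2, 19, 12], [11, 3, 20, 13]]

def inc24 (i j : Fin 24) : Prop := i ∈ nbr j

instance (i j : Fin 24) : Decidable (inc24 i j) := by unfold inc24; infer_instance

/-- the first and the second of the four points of a line -/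
def pa : Fin 24 → Fin 24 := ![0, 1, 2, 3, 4, 5, 6, 7, 8, 9, 10, 11, 0, 1, 2, 3, 4, 5, 6, 7, 8, 9, 10, 11]
def pb : Fin 24 → Fin 24 := ![1, 2, 3, 4, 5, 6, 7, 8, 9, 10, 11, 0, 4, 5, 6, 7, 8, 9, 10, 11, 0, 1, 2, 3]

theorem pa_ne_pb : ∀ j : Fin 24, pa j ≠ pb j := by decide +kernel

theorem uniq24 : ∀ j j' : Fin 24, ∀ i ∈ nbr j, ∀ i' ∈ nbr j, i ≠ i' → i ∈ nbr j' → i' ∈ nbr j' →
    j = j' := by decide +kernel

def C24 : Config 24 where
  inc := inc24
  lines_through := by
    intro i
    rw [Set.ncard_eq_toFinset_card']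
    revert i; decide +kernel
  points_on := by
    intro j
    rw [Set.ncard_eq_toFinset_card']
    revert j; decide +kernel
  unique_line := fun i i' j j' h h1 h2 h3 h4 => uniq24 j j' i h1 i' h2 h h3 h4

theorem sep : ∀ j j' : Fin 24, (∀ i, inc24 i j ↔ inc24 i j') → j = j' := by decide +kernel

/-! ### Plane geometry -/

theorem lineMap_eq (P Q : ℂ) (r : ℝ) : (AffineMap.lineMap P Q r : ℂ) =
    ⟨P.re + r * (Q.re - P.re), P.im + r * (Q.im - P.im)⟩ := by
  apply Complex.ext
  · simp [AffineMap.lineMap_apply]; ring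
  · simp [AffineMap.lineMap_apply]; ring

theorem mem_line_iff {P Q R : ℂ} (h : P ≠ Q) :
    R ∈ line[ℝ, P, Q] ↔ (Q.re - P.re) * (R.im - P.im) = (Q.im - P.im) * (R.re - P.re) := by
  rw [mem_affineSpan_pair_iff_exists_lineMap_eq]
  constructor
  · rintro ⟨r, rfl⟩
    rw [lineMap_eq]
    ring
  · intro e
    have hne : Q.re - P.re ≠ 0 ∨ Q.im - P.im ≠ 0 := by
      by_contra hc
      push Not at hc
      apply h
      apply Complex.ext
      · linarith [hc.1]
      · linarith [hc.2]
    rcases hne with h0 | h1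
    · refine ⟨(R.re - P.re) / (Q.re - P.re), ?_⟩
      rw [lineMap_eq]
      apply Complex.ext
      · simp only; field_simp; ring
      · simp only; field_simp; linarith
    · refine ⟨(R.im - P.im) / (Q.im - P.im), ?_⟩
      rw [lineMap_eq]
      apply Complex.ext
      · simp only; field_simp; linarith
      · simp only; field_simp; ring

theorem line_finrank {P Q : ℂ} (h : P ≠ Q) :
    Module.finrank ℝ (line[ℝ, P, Q]).direction = 1 := by
  rw [direction_affineSpan, vectorSpan_pair_rev]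
  exact finrank_span_singleton (by simpa [sub_eq_zero] using h.symm)

/-- A realization of `C24` from points satisfying the incidence criterion -/
noncomputable def mkReal (p : Fin 24 → ℂ) (hinj : Function.Injective p)
    (hdet : ∀ i j : Fin 24, ((p (pb j)).re - (p (pa j)).re) * ((p i).im - (p (pa j)).im) =
      ((p (pb j)).im - (p (pa j)).im) * ((p i).re - (p (pa j)).re) ↔ inc24 i j) :
    Realization C24 where
  pt := p
  ln := fun j => line[ℝ, p (pa j), p (pb j)]
  pt_inj := hinj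
  ln_inj := by
    intro j j' h
    apply sep
    intro i
    rw [← hdet, ← hdet, ← mem_line_iff (hinj.ne (pa_ne_pb j)), ← mem_line_iff (hinj.ne (pa_ne_pb j'))]
    simp only at h
    rw [h]
  ln_line := by
    intro j
    exact ⟨⟨p (pa j), left_mem_affineSpan_pair ℝ _ _⟩, line_finrank (hinj.ne (pa_ne_pb j))⟩
  inc_iff := by
    intro i j
    rw [mem_line_iff (hinj.ne (pa_ne_pb j)), hdet]
    exact Iff.rfl

/-! ### The rational realization -/

def xs : Fin 24 → ℤ := ![6, 6, 9, 0, -12, -9, -6, -6, -9, 0, 12, 9, 6, -18, -6, -24, -36, -4, -6, 18,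
  6, 24, 36, 4]
def ys : Fin 24 → ℤ := ![0, 12, 9, 6, 6, 9, 0, -12, -9, -6, -6, -9, 24, 36, 4, 6, -18, -6, -24, -36,
  -4, -6, 18, 6]

theorem int_inj : ∀ i j : Fin 24, xs i = xs j → ys i = ys j → i = j := by decide +kernel

theorem int_det : ∀ i j : Fin 24, ((xs (pb j) - xs (pa j)) * (ys i - ys (pa j)) =
    (ys (pb j) - ys (pa j)) * (xs i - xs (pa j))) ↔ inc24 i j := by decide +kernel

noncomputable def qpt (i : Fin 24) : ℂ := ⟨(xs i : ℝ), (ys i : ℝ)⟩

theorem qpt_inj : Function.Injective qpt := by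
  intro i j h
  rw [Complex.ext_iff] at h
  simp only [qpt] at h
  exact int_inj i j (by exact_mod_cast h.1) (by exact_mod_cast h.2)

noncomputable def Q24 : Realization C24 :=
  mkReal qpt qpt_inj (by
    intro i j
    rw [← int_det i j]
    simp only [qpt]
    exact_mod_cast Iff.rfl)

theorem Q24_rational : IsRational Q24 := by
  intro i
  refine ⟨xs i, ys i, ?_⟩
  change qpt i = _
  simp [qpt]

/-! ### The astral realization -/

def AX : Fin 24 → Zsqrtd 3 := ![⟨2, 0⟩, ⟨0, 1⟩, ⟨1, 0⟩, ⟨0, 0⟩, ⟨-1, 0⟩, ⟨0, -1⟩, ⟨-2, 0⟩, ⟨0, -1⟩,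
  ⟨-1, 0⟩, ⟨0, 0⟩, ⟨1, 0⟩, ⟨0, 1⟩, ⟨1, 0⟩, ⟨-1, 0⟩, ⟨-1, -1⟩, ⟨-2, -1⟩, ⟨-2, -1⟩, ⟨-1, -1⟩,
  ⟨-1, 0⟩, ⟨1, 0⟩, ⟨1, 1⟩, ⟨2, 1⟩, ⟨2, 1⟩, ⟨1, 1⟩]
def AY : Fin 24 → Zsqrtd 3 := ![⟨0, 0⟩, ⟨1, 0⟩, ⟨0, 1⟩, ⟨2, 0⟩, ⟨0, 1⟩, ⟨1, 0⟩, ⟨0, 0⟩, ⟨-1, 0⟩,
  ⟨0, -1⟩, ⟨-2, 0⟩, ⟨0, -1⟩, ⟨-1, 0⟩, ⟨2, 1⟩, ⟨2, 1⟩, ⟨1, 1⟩, ⟨1, 0⟩, ⟨-1, 0⟩, ⟨-1, -1⟩,
  ⟨-2, -1⟩, ⟨-2, -1⟩, ⟨-1, -1⟩, ⟨-1, 0⟩, ⟨1, 0⟩, ⟨1, 1⟩]

noncomputable def φ : Zsqrtd 3 →+* ℝ := Zsqrtd.toReal (by norm_num)

theorem φ_inj : Function.Injective φ := by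
  apply Zsqrtd.toReal_injective
  intro n h
  have h1 : n < 2 := by nlinarith
  have h2 : -2 < n := by nlinarith
  interval_cases n <;> omega

theorem φ_sqrtd : φ ⟨0, 1⟩ = √3 := by
  simp [φ]

theorem a_inj : ∀ i j : Fin 24, AX i = AX j → AY i = AY j → i = j := by decide +kernel

theorem a_det : ∀ i j : Fin 24, ((AX (pb j) - AX (pa j)) * (AY i - AY (pa j)) =
    (AY (pb j) - AY (pa j)) * (AX i - AX (pa j))) ↔ inc24 i j := by decide +kernel

noncomputable def apt (i : Fin 24) : ℂ := ⟨φ (AX i), φ (AY i)⟩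

theorem apt_inj : Function.Injective apt := by
  intro i j h
  rw [Complex.ext_iff] at h
  exact a_inj i j (φ_inj h.1) (φ_inj h.2)

noncomputable def A24 : Realization C24 :=
  mkReal apt apt_inj (by
    intro i j
    rw [← a_det i j, ← φ_inj.eq_iff]
    simp only [map_mul, map_sub, apt])

theorem A24_ln (j : Fin 24) : A24.ln j = line[ℝ, apt (pa j), apt (pb j)] := rfl
theorem A24_pt (j : Fin 24) : A24.pt j = apt j := rfl

/-- the rotation through 30 degrees on the indices (of points and of lines) -/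
def s1 : Fin 24 → Fin 24 := ![1, 2, 3, 4, 5, 6, 7, 8, 9, 10, 11, 0, 13, 14, 15, 16, 17, 18, 19, 20, 21, 22, 23, 12]
/-- the complex conjugation on the indices of points -/
def c1 : Fin 24 → Fin 24 := ![0, 11, 10, 9, 8, 7, 6, 5, 4, 3, 2, 1, 19, 18, 17, 16, 15, 14, 13, 12, 23, 22, 21, 20]
/-- the complex conjugation on the indices of lines -/
def d1 : Fin 24 → Fin 24 := ![11, 10, 9, 8, 7, 6, 5, 4, 3, 2, 1, 0, 20, 19, 18, 17, 16, 15, 14, 13, 12, 23, 22, 21]

theorem s1_surj : Function.Surjective s1 := by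
  have : ∀ i : Fin 24, ∃ j, s1 j = i := by decide +kernel
  exact this
theorem c1_surj : Function.Surjective c1 := by
  have : ∀ i : Fin 24, ∃ j, c1 j = i := by decide +kernel
  exact this
theorem d1_surj : Function.Surjective d1 := by
  have : ∀ i : Fin 24, ∃ j, d1 j = i := by decide +kernel
  exact this

theorem rot_check : ∀ i : Fin 24, (⟨0, 1⟩ : Zsqrtd 3) * AX i - AY i = 2 * AX (s1 i) ∧
    AX i + (⟨0, 1⟩ : Zsqrtd 3) * AY i = 2 * AY (s1 i) := by decide +kernel
theorem conj_check : ∀ i : Fin 24, AX (c1 i) = AX i ∧ AY (c1 i) = -AY i := by decide +kernel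
theorem s1_line : ∀ j : Fin 24, s1 (pa j) = pa (s1 j) ∧ s1 (pb j) = pb (s1 j) := by decide +kernel
theorem c1_line : ∀ j : Fin 24, c1 (pa j) = pb (d1 j) ∧ c1 (pb j) = pa (d1 j) := by decide +kernel

noncomputable def om : ℂ := ⟨√3 / 2, 1 / 2⟩

theorem om_eq (j : ℕ) : Complex.exp (2 * Real.pi * Complex.I * j / (12 : ℕ)) = om ^ j := by
  have h1 : Complex.exp ((Real.pi / 6 : ℝ) * Complex.I) = om := by
    rw [Complex.exp_mul_I, ← Complex.ofReal_cos, ← Complex.ofReal_sin, Real.cos_pi_div_six,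
      Real.sin_pi_div_six]
    apply Complex.ext
    · simp [om]
    · simp [om]
  rw [← h1, ← Complex.exp_nat_mul]
  congr 1
  push_cast
  ring

theorem norm_om : ‖om‖ = 1 := by
  have h := om_eq 1
  rw [pow_one] at h
  rw [← h]
  have : 2 * Real.pi * Complex.I * (1 : ℕ) / (12 : ℕ) = (Real.pi / 6 : ℝ) * Complex.I := by
    push_cast; ring
  rw [this]
  exact Complex.norm_exp_ofReal_mul_I _

theorem om_mul (i : Fin 24) : om * apt i = apt (s1 i) := by
  have h := rot_check i
  have h1 := congrArg φ h.1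
  have h2 := congrArg φ h.2
  simp only [map_mul, map_sub, map_add, φ_sqrtd, map_ofNat] at h1 h2
  apply Complex.ext
  · simp only [om, apt, Complex.mul_re]; linarith
  · simp only [om, apt, Complex.mul_im]; linarith

theorem om_pow_mul (k : ℕ) (i : Fin 24) : om ^ k * apt i = apt (s1^[k] i) := by
  induction k generalizing i with
  | zero => simp
  | succ k ih =>
    rw [pow_succ, mul_assoc, om_mul, ih, Function.iterate_succ_apply]

theorem conj_apt (i : Fin 24) : (starRingEnd ℂ) (apt i) = apt (c1 i) := by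
  have h := conj_check i
  apply Complex.ext
  · simp [apt, h.1]
  · simp [apt, h.2]

theorem image_line (f : ℂ ≃ᵢ ℂ) (a b : ℂ) :
    f '' (line[ℝ, a, b] : Set ℂ) = (line[ℝ, f a, f b] : Set ℂ) := by
  have h := AffineSubspace.map_span f.toRealAffineIsometryEquiv.toAffineEquiv.toAffineMap {a, b}
  rw [Set.image_pair] at h
  have h2 := congrArg (fun s : AffineSubspace ℝ ℂ => (s : Set ℂ)) h
  simp only [AffineSubspace.coe_map] at h2
  exact h2

theorem sym_of {f : ℂ ≃ᵢ ℂ} {s t : Fin 24 → Fin 24} (hs : Function.Surjective s)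
    (ht : Function.Surjective t) (h1 : ∀ i, f (apt i) = apt (s i))
    (h2 : ∀ j, f '' (A24.ln j : Set ℂ) = (A24.ln (t j) : Set ℂ)) : IsSymmetry A24 f := by
  constructor
  · rw [← Set.range_comp]
    have : f ∘ A24.pt = A24.pt ∘ s := funext h1
    rw [this, hs.range_comp]
  · rw [← Set.range_comp]
    have : (fun s : Set ℂ => f '' s) ∘ (fun j => (A24.ln j : Set ℂ)) =
      (fun j => (A24.ln j : Set ℂ)) ∘ t := funext h2
    rw [this, ht.range_comp]

theorem iter_line (k : ℕ) (j : Fin 24) :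
    s1^[k] (pa j) = pa (s1^[k] j) ∧ s1^[k] (pb j) = pb (s1^[k] j) := by
  induction k generalizing j with
  | zero => simp only [Function.iterate_zero, id_eq, and_self]
  | succ k ih =>
    rw [Function.iterate_succ_apply, Function.iterate_succ_apply, Function.iterate_succ_apply,
      (s1_line j).1, (s1_line j).2]
    exact ih (s1 j)

theorem rot_pt {f : ℂ ≃ᵢ ℂ} {k : ℕ} (h : ∀ z, f z = om ^ k * z) (i : Fin 24) :
    f (apt i) = apt (s1^[k] i) := by rw [h, om_pow_mul]

theorem rot_ln {f : ℂ ≃ᵢ ℂ} {k : ℕ} (h : ∀ z, f z = om ^ k * z) (j : Fin 24) :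
    f '' (A24.ln j : Set ℂ) = (A24.ln (s1^[k] j) : Set ℂ) := by
  rw [A24_ln, A24_ln, image_line, rot_pt h, rot_pt h, (iter_line k j).1, (iter_line k j).2]

theorem ref_pt {f : ℂ ≃ᵢ ℂ} {k : ℕ} (h : ∀ z, f z = om ^ k * (starRingEnd ℂ) z) (i : Fin 24) :
    f (apt i) = apt (s1^[k] (c1 i)) := by rw [h, conj_apt, om_pow_mul]

theorem ref_ln {f : ℂ ≃ᵢ ℂ} {k : ℕ} (h : ∀ z, f z = om ^ k * (starRingEnd ℂ) z) (j : Fin 24) :
    f '' (A24.ln j : Set ℂ) = (A24.ln (s1^[k] (d1 j)) : Set ℂ) := by
  rw [A24_ln, A24_ln, image_line, ref_pt h, ref_pt h, (c1_line j).1, (c1_line j).2,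
    (iter_line k (d1 j)).1, (iter_line k (d1 j)).2, Set.pair_comm]

theorem sym_rot {f : ℂ ≃ᵢ ℂ} {k : ℕ} (h : ∀ z, f z = om ^ k * z) : IsSymmetry A24 f :=
  sym_of (s1_surj.iterate k) (s1_surj.iterate k) (rot_pt h) (rot_ln h)

theorem sym_ref {f : ℂ ≃ᵢ ℂ} {k : ℕ} (h : ∀ z, f z = om ^ k * (starRingEnd ℂ) z) :
    IsSymmetry A24 f :=
  sym_of (s := s1^[k] ∘ c1) (t := s1^[k] ∘ d1) ((s1_surj.iterate k).comp c1_surj)
    ((s1_surj.iterate k).comp d1_surj) (ref_pt h) (ref_ln h)

/-! ### The symmetry group -/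

theorem exists_perm {α : Type} {n : ℕ} (p : Fin n → α) (hp : Function.Injective p) (f : α → α)
    (hf : Function.Injective f) (h : f '' Set.range p = Set.range p) :
    ∃ s : Equiv.Perm (Fin n), ∀ i, f (p i) = p (s i) := by
  have h1 : ∀ i, ∃ k, p k = f (p i) := by
    intro i
    have : f (p i) ∈ f '' Set.range p := ⟨p i, ⟨i, rfl⟩, rfl⟩
    rw [h] at this
    exact this
  choose s hs using h1
  have hinj : Function.Injective s := by
    intro i j hij
    have : f (p i) = f (p j) := by rw [← hs, ← hs, hij]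
    exact hp (hf this)
  exact ⟨Equiv.ofBijective s (Finite.injective_iff_bijective.mp hinj), fun i => (hs i).symm⟩

theorem centroid_fixed {n : ℕ} [NeZero n] (p : Fin n → ℂ) (f : ℂ ≃ᵢ ℂ) (s : Equiv.Perm (Fin n))
    (h : ∀ i, f (p i) = p (s i)) : f (Finset.univ.centroid ℝ p) = Finset.univ.centroid ℝ p := by
  have h1 : (∑ i : Fin n, Finset.centroidWeights ℝ Finset.univ i) = 1 :=
    Finset.sum_centroidWeights_eq_one_of_card_ne_zero ℝ _ (by simp [NeZero.ne])
  have h2 := Finset.map_affineCombination (k := ℝ) Finset.univ p (Finset.centroidWeights ℝ Finset.univ) h1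
    (f.toRealAffineIsometryEquiv.toAffineEquiv.toAffineMap)
  have h3 : ∀ x, (f.toRealAffineIsometryEquiv.toAffineEquiv.toAffineMap) x = f x := fun x => rfl
  rw [h3] at h2
  rw [Finset.centroid_def, h2]
  have h4 : (⇑(f.toRealAffineIsometryEquiv.toAffineEquiv.toAffineMap) ∘ p) = p ∘ s := by
    funext i
    exact h i
  rw [h4]
  have h5 := Finset.affineCombination_map (k := ℝ) Finset.univ s.toEmbedding (Finset.centroidWeights ℝ Finset.univ) p
  simp only [Finset.map_univ_equiv] at h5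
  rw [h5]
  rfl

theorem sumX : (∑ i : Fin 24, AX i) = 0 := by decide +kernel
theorem sumY : (∑ i : Fin 24, AY i) = 0 := by decide +kernel

theorem centroid_zero : Finset.univ.centroid ℝ apt = 0 := by
  have h1 : (∑ i : Fin 24, Finset.centroidWeights ℝ Finset.univ i) = 1 :=
    Finset.sum_centroidWeights_eq_one_of_card_ne_zero ℝ _ (by simp)
  rw [Finset.centroid_def, Finset.affineCombination_eq_linear_combination _ _ _ h1]
  simp only [Finset.centroidWeights_apply]
  rw [← Finset.smul_sum]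
  have : ∑ i : Fin 24, apt i = 0 := by
    apply Complex.ext
    · rw [Complex.re_sum]
      simp only [apt]
      rw [← map_sum, sumX, map_zero]; rfl
    · rw [Complex.im_sum]
      simp only [apt]
      rw [← map_sum, sumY, map_zero]; rfl
  rw [this, smul_zero]

theorem norm_check : ∀ i : Fin 24, AX i * AX i + AY i * AY i = AX 0 * AX 0 + AY 0 * AY 0 →
    i.val < 12 := by decide +kernel

theorem reach : ∀ i i' : Fin 24, (i'.val < 12 ↔ i.val < 12) → ∃ k : Fin 12, s1^[k.val] i = i' := by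
  decide +kernel

theorem sym_iff (f : ℂ ≃ᵢ ℂ) : IsSymmetry A24 f ↔
    ∃ k : ℕ, (∀ z, f z = om ^ k * z) ∨ (∀ z, f z = om ^ k * (starRingEnd ℂ) z) := by
  constructor
  · intro h
    obtain ⟨s, hs⟩ := exists_perm A24.pt A24.pt_inj f f.injective h.1
    have hs' : ∀ i, f (apt i) = apt (s i) := hs
    have h0 : f 0 = 0 := by
      have := centroid_fixed apt f s hs'
      rwa [centroid_zero] at this
    have hn : ‖apt (s 0)‖ = ‖apt 0‖ := by
      rw [← hs' 0, ← dist_zero_right, ← dist_zero_right]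
      conv_lhs => rw [← h0]
      exact f.isometry.dist_eq _ _
    have hlt : (s 0).val < 12 := by
      apply norm_check
      apply φ_inj
      have h2 : ‖apt (s 0)‖ ^ 2 = ‖apt 0‖ ^ 2 := by rw [hn]
      rw [← Complex.normSq_eq_norm_sq, ← Complex.normSq_eq_norm_sq, Complex.normSq_apply,
        Complex.normSq_apply] at h2
      simpa only [map_add, map_mul, apt] using h2
    obtain ⟨k, hk⟩ := reach 0 (s 0) (by simpa using hlt)
    have hk2 : apt (s 0) = om ^ k.val * apt 0 := by rw [om_pow_mul, hk]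
    have hne : apt 0 ≠ 0 := by
      intro h
      have h1 : φ (AX 0) = 0 := congrArg Complex.re h
      have h2 : AX 0 = 0 := φ_inj (by rw [h1, map_zero])
      exact absurd h2 (by decide)
    have hreal : (starRingEnd ℂ) (apt 0) = apt 0 := conj_apt 0
    obtain ⟨a, ha⟩ := linear_isometry_complex (f.toRealLinearIsometryEquivOfMapZero h0)
    refine ⟨k.val, ?_⟩
    rcases ha with ha | ha
    · left
      have hz : ∀ z, f z = a * z := by
        intro z
        have := congrArg (fun g : ℂ ≃ₗᵢ[ℝ] ℂ => g z) ha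
        simpa [rotation_apply] using this
      have h1 := hz (apt 0)
      rw [hs' 0, hk2] at h1
      have h2 : om ^ k.val = a := mul_right_cancel₀ hne h1
      intro z
      rw [hz z, h2]
    · right
      have hz : ∀ z, f z = a * (starRingEnd ℂ) z := by
        intro z
        have := congrArg (fun g : ℂ ≃ₗᵢ[ℝ] ℂ => g z) ha
        simpa [rotation_apply] using this
      have h1 := hz (apt 0)
      rw [hs' 0, hk2, hreal] at h1
      have h2 : om ^ k.val = a := mul_right_cancel₀ hne h1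
      intro z
      rw [hz z, h2]
  · rintro ⟨k, h | h⟩
    · exact sym_rot h
    · exact sym_ref h

theorem dihedral24 : DihedralSymmetry 12 A24 := by
  refine ⟨0, 1, by simp, fun f => ?_⟩
  rw [sym_iff]
  simp only [om_eq, zero_add, sub_zero, mul_one]

/-! ### Orbits -/

/-- the block of an index: the twelve indices less than 12, or the twelve others -/
def blk (i : Fin 24) : Set (Fin 24) := {i' | i'.val < 12 ↔ i.val < 12}

instance (i : Fin 24) : DecidablePred (· ∈ blk i) := fun i' =>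
  inferInstanceAs (Decidable (i'.val < 12 ↔ i.val < 12))

theorem s1_blk : ∀ i : Fin 24, (s1 i).val < 12 ↔ i.val < 12 := by decide +kernel
theorem c1_blk : ∀ i : Fin 24, (c1 i).val < 12 ↔ i.val < 12 := by decide +kernel
theorem d1_blk : ∀ i : Fin 24, (d1 i).val < 12 ↔ i.val < 12 := by decide +kernel

theorem iter_blk (k : ℕ) (i : Fin 24) : (s1^[k] i).val < 12 ↔ i.val < 12 := by
  induction k generalizing i with
  | zero => simp only [Function.iterate_zero, id_eq]
  | succ k ih =>
    rw [Function.iterate_succ_apply, ih, s1_blk]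

/-- the rotation by `om ^ k` as an isometry -/
noncomputable def rotIso (k : ℕ) : ℂ ≃ᵢ ℂ :=
  (rotation ⟨om ^ k, by simp [Submonoid.unitSphere, norm_om]⟩).toIsometryEquiv

theorem rotIso_apply (k : ℕ) (z : ℂ) : rotIso k z = om ^ k * z := rfl

theorem pointOrbit_eq (i : Fin 24) : pointOrbit A24 i = blk i := by
  ext i'
  constructor
  · rintro ⟨f, hf, h⟩
    rw [A24_pt, A24_pt] at h
    rw [sym_iff] at hf
    obtain ⟨k, hk | hk⟩ := hf
    · rw [rot_pt hk] at h
      have := apt_inj h
      change i'.val < 12 ↔ i.val < 12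
      rw [← this, iter_blk]
    · rw [ref_pt hk] at h
      have := apt_inj h
      change i'.val < 12 ↔ i.val < 12
      rw [← this, iter_blk, c1_blk]
  · intro h
    obtain ⟨k, hk⟩ := reach i i' h
    refine ⟨rotIso k.val, sym_rot (k := k.val) (rotIso_apply _), ?_⟩
    rw [A24_pt, A24_pt, rot_pt (k := k.val) (rotIso_apply _), hk]

theorem lineOrbit_eq (j : Fin 24) : lineOrbit A24 j = blk j := by
  ext j'
  constructor
  · rintro ⟨f, hf, h⟩
    rw [sym_iff] at hf
    obtain ⟨k, hk | hk⟩ := hf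
    · rw [rot_ln hk] at h
      have := A24.ln_inj (SetLike.coe_injective h)
      change j'.val < 12 ↔ j.val < 12
      rw [← this, iter_blk]
    · rw [ref_ln hk] at h
      have := A24.ln_inj (SetLike.coe_injective h)
      change j'.val < 12 ↔ j.val < 12
      rw [← this, iter_blk, d1_blk]
  · intro h
    obtain ⟨k, hk⟩ := reach j j' h
    refine ⟨rotIso k.val, sym_rot (k := k.val) (rotIso_apply _), ?_⟩
    rw [rot_ln (k := k.val) (rotIso_apply _), hk]

theorem range_blk : Set.range blk = {blk 0, blk 12} := by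
  ext s
  simp only [Set.mem_range, Set.mem_insert_iff, Set.mem_singleton_iff]
  constructor
  · rintro ⟨i, rfl⟩
    by_cases h : i.val < 12
    · left
      ext i'
      change (i'.val < 12 ↔ i.val < 12) ↔ (i'.val < 12 ↔ (0 : Fin 24).val < 12)
      simp [h]
    · right
      ext i'
      change (i'.val < 12 ↔ i.val < 12) ↔ (i'.val < 12 ↔ (12 : Fin 24).val < 12)
      have : ¬ ((12 : Fin 24).val < 12) := by decide
      simp only [h, this]
  · rintro (rfl | rfl)
    · exact ⟨0, rfl⟩
    · exact ⟨12, rfl⟩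

theorem blk_ne : blk 0 ≠ blk 12 := by
  intro h
  have h1 : (0 : Fin 24) ∈ blk 0 := by decide
  rw [h] at h1
  revert h1
  decide

theorem card_blk (i : Fin 24) : (blk i).ncard = 12 := by
  rw [Set.ncard_eq_toFinset_card']
  revert i
  decide +kernel

theorem polygon24 (i : Fin 24) : IsRegularPolygon 12 (A24.pt '' blk i) := by
  refine ⟨0, apt i, ?_, ?_⟩
  · intro h
    have h1 : φ (AX i) = 0 := congrArg Complex.re h
    have h2 : φ (AY i) = 0 := congrArg Complex.im h
    have h3 : AX i = 0 := φ_inj (by rw [h1, map_zero])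
    have h4 : AY i = 0 := φ_inj (by rw [h2, map_zero])
    have h5 : ∀ i : Fin 24, AX i = 0 → AY i ≠ 0 := by decide +kernel
    exact h5 i h3 h4
  · ext z
    simp only [om_eq, zero_add]
    constructor
    · rintro ⟨i', h, rfl⟩
      obtain ⟨k, hk⟩ := reach i i' h
      exact ⟨k.val, by rw [om_pow_mul, hk]; rfl⟩
    · rintro ⟨j, rfl⟩
      exact ⟨s1^[j] i, iter_blk j i, by rw [om_pow_mul]; rfl⟩

theorem card_lines (i j : Fin 24) : {l ∈ blk j | C24.inc i l}.ncard = 2 := by
  change {l | l ∈ blk j ∧ inc24 i l}.ncard = 2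
  rw [Set.ncard_eq_toFinset_card']
  revert i j
  decide +kernel

theorem card_points (l i : Fin 24) : {p ∈ blk i | C24.inc p l}.ncard = 2 := by
  change {p | p ∈ blk i ∧ inc24 p l}.ncard = 2
  rw [Set.ncard_eq_toFinset_card']
  revert l i
  decide +kernel

theorem A24_astral : IsAstral 2 12 A24 where
  two_le_k := le_refl 2
  two_le_m := by norm_num
  n_eq := rfl
  dihedral := dihedral24
  num_point_orbits := by
    rw [funext pointOrbit_eq, range_blk, Set.ncard_pair blk_ne]
  num_line_orbits := by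
    rw [funext lineOrbit_eq, range_blk, Set.ncard_pair blk_ne]
  point_orbit_size := by
    intro i
    rw [pointOrbit_eq, card_blk]
  line_orbit_size := by
    intro i
    rw [lineOrbit_eq, card_blk]
  polygon := by
    intro i
    rw [pointOrbit_eq]
    exact polygon24 i
  lines_two_two := by
    intro i
    refine ⟨0, 12, ?_, ?_, ?_⟩
    · rw [lineOrbit_eq, lineOrbit_eq]; exact blk_ne
    · rw [lineOrbit_eq]; exact card_lines i 0
    · rw [lineOrbit_eq]; exact card_lines i 12
  points_two_two := by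
    intro l
    refine ⟨0, 12, ?_, ?_, ?_⟩
    · rw [pointOrbit_eq, pointOrbit_eq]; exact blk_ne
    · rw [pointOrbit_eq]; exact card_points l 0
    · rw [pointOrbit_eq]; exact card_points l 12

/-- There is an astral (2-astral) 4-configuration whose underlying combinatorial configuration has
a rational realization. -/
theorem result :
    ∃ (n m : ℕ) (C : Config n) (A : Realization C), IsAstral 2 m A ∧
      ∃ R : Realization C, IsRational R :=
  ⟨24, 12, C24, A24, A24_astral, Q24, Q24_rational⟩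

end Pool.Agent.Results.MP_b542c4_co.AstralRational
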